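import Pool.Agent.H918.D.LMd

/-! TASK T3 (helper918), proved by helper870. -/

set_option autoImplicit false

open Filter Topology Metric Set

namespace Pool.Agent.H918.SS

theorem pf_lower {a b z : ℂ} (hab : a ≠ b) (hza : z ≠ a) (hzb : z ≠ b) :
    1 / (4 * ‖z - a‖ ^ 4 * (1 + |Real.log (‖z - a‖ / ‖b - a‖)|)) ≤ pf a b z := by
  unfold pf
  have hρ : 0 < ‖z - a‖ := norm_pos_iff.2 (sub_ne_zero.2 hza)
  have hr : 0 < ‖b - a‖ := norm_pos_iff.2 (sub_ne_zero.2 hab.symm)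
  have hd : 0 < ‖z - b‖ := norm_pos_iff.2 (sub_ne_zero.2 hzb)
  have htri : ‖z - b‖ ≤ ‖z - a‖ + ‖b - a‖ := by
    have h := norm_sub_le (z - a) (b - a)
    have e : z - a - (b - a) = z - b := by ring
    rwa [e] at h
  generalize ‖z - a‖ = ρ at *
  generalize ‖b - a‖ = r at *
  generalize ‖z - b‖ = d at *
  have hℓ : 0 < 1 + |Real.log (ρ / r)| := by have := abs_nonneg (Real.log (ρ / r)); linarith
  generalize 1 + |Real.log (ρ / r)| = ℓ at *
  have h1 : ρ ≤ max ρ r := le_max_left _ _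
  have h2 : r ≤ max ρ r := le_max_right _ _
  generalize max ρ r = m at *
  have hm : 0 < m := lt_of_lt_of_le hρ h1
  rw [div_le_div_iff₀ (by positivity) (by positivity)]
  have h3 : d ^ 2 ≤ 4 * m ^ 2 := by nlinarith
  have h4 := mul_le_mul_of_nonneg_left h3 (show 0 ≤ ρ ^ 4 * ℓ by positivity)
  linarith

theorem pf_upper {a b z : ℂ} (hab : a ≠ b) (hza : z ≠ a) (hzb : z ≠ b)
    (h : max ‖z - a‖ ‖b - a‖ ≤ 8 * ‖z - b‖) :
    pf a b z ≤ 64 / (‖z - a‖ ^ 4 * (1 + |Real.log (‖z - a‖ / ‖b - a‖)|)) := by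
  unfold pf
  have hρ : 0 < ‖z - a‖ := norm_pos_iff.2 (sub_ne_zero.2 hza)
  have hr : 0 < ‖b - a‖ := norm_pos_iff.2 (sub_ne_zero.2 hab.symm)
  have hd : 0 < ‖z - b‖ := norm_pos_iff.2 (sub_ne_zero.2 hzb)
  generalize ‖z - a‖ = ρ at *
  generalize ‖b - a‖ = r at *
  generalize ‖z - b‖ = d at *
  have hℓ : 0 < 1 + |Real.log (ρ / r)| := by have := abs_nonneg (Real.log (ρ / r)); linarith
  generalize 1 + |Real.log (ρ / r)| = ℓ at *
  have h1 : ρ ≤ max ρ r := le_max_left _ _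
  generalize max ρ r = m at *
  have hm : 0 < m := lt_of_lt_of_le hρ h1
  rw [div_le_div_iff₀ (by positivity) (by positivity)]
  have h3 : m ^ 2 ≤ 64 * d ^ 2 := by nlinarith
  have h4 := mul_le_mul_of_nonneg_left h3 (show 0 ≤ ρ ^ 4 * ℓ by positivity)
  linarith

/-- lower bound for the gauge close to the first point -/
theorem pf_near {c a z : ℂ} (hza : z ≠ a) (hzc : z ≠ c) (h : ‖z - c‖ < ‖a - c‖) :
    ‖a - c‖ / (‖z - c‖ ^ 3 * ‖z - a‖ ^ 2) ≤ pf c a z := by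
  unfold pf
  have ht : 0 < ‖z - c‖ := norm_pos_iff.2 (sub_ne_zero.2 hzc)
  have hρ : 0 < ‖z - a‖ := norm_pos_iff.2 (sub_ne_zero.2 hza)
  generalize ‖z - a‖ = ρ at *
  generalize ‖a - c‖ = s at *
  generalize ‖z - c‖ = t at *
  have hs : 0 < s := ht.trans h
  rw [max_eq_right h.le]
  have hlog : |Real.log (t / s)| = Real.log (s / t) := by
    have h1 : Real.log (t / s) < 0 := Real.log_neg (by positivity) ((div_lt_one hs).2 h)
    rw [abs_of_neg h1, ← Real.log_inv, inv_div]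
  rw [hlog]
  have h2 : 1 + Real.log (s / t) ≤ s / t := by
    have := Real.log_le_sub_one_of_pos (show 0 < s / t by positivity)
    linarith
  have h3 : 0 < 1 + Real.log (s / t) := by
    have : 0 < Real.log (s / t) := Real.log_pos ((one_lt_div ht).2 h)
    linarith
  rw [div_le_div_iff₀ (by positivity) (by positivity)]
  have h4 : t * (1 + Real.log (s / t)) ≤ s := by
    have := mul_le_mul_of_nonneg_left h2 ht.le
    rwa [mul_div_cancel₀ _ ht.ne'] at this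
  have h5 := mul_le_mul_of_nonneg_left h4 (show 0 ≤ s * t ^ 3 * ρ ^ 2 by positivity)
  calc s * (t ^ 4 * ρ ^ 2 * (1 + Real.log (s / t))) =
        s * t ^ 3 * ρ ^ 2 * (t * (1 + Real.log (s / t))) := by ring
    _ ≤ s * t ^ 3 * ρ ^ 2 * s := h5
    _ = s ^ 2 * (t ^ 3 * ρ ^ 2) := by ring

/-- for a maximal pair the point is not close to the second point -/
theorem far_second {Z : Finset ℂ} {a b z : ℂ} (ha : a ∈ Z) (hb : b ∈ Z) (hab : a ≠ b) (hz : z ∉ Z)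
    (hmax : gf Z z = pf a b z) : max ‖z - a‖ ‖b - a‖ ≤ 8 * ‖z - b‖ := by
  have hza : z ≠ a := fun h => hz (h ▸ ha)
  have hzb : z ≠ b := fun h => hz (h ▸ hb)
  by_contra hcon
  push Not at hcon
  have h1 := pf_le_gf hb ha hab.symm z
  rw [hmax] at h1
  have hρ : 0 < ‖z - a‖ := norm_pos_iff.2 (sub_ne_zero.2 hza)
  have hr : 0 < ‖b - a‖ := norm_pos_iff.2 (sub_ne_zero.2 hab.symm)
  have hd : 0 < ‖z - b‖ := norm_pos_iff.2 (sub_ne_zero.2 hzb)
  have htri1 : ‖z - a‖ ≤ ‖z - b‖ + ‖b - a‖ := by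
    have h := norm_add_le (z - b) (b - a)
    have e : z - b + (b - a) = z - a := by ring
    rwa [e] at h
  have htri2 : ‖b - a‖ ≤ ‖z - b‖ + ‖z - a‖ := by
    have h := norm_sub_le (z - a) (z - b)
    have e : z - a - (z - b) = b - a := by ring
    rw [e] at h
    linarith
  have hsw : ‖a - b‖ = ‖b - a‖ := norm_sub_rev _ _
  have hm1 : ‖z - a‖ ≤ max ‖z - a‖ ‖b - a‖ := le_max_left _ _
  have hm2 : ‖b - a‖ ≤ max ‖z - a‖ ‖b - a‖ := le_max_right _ _
  have hm3 : 7 / 8 * max ‖z - a‖ ‖b - a‖ ≤ ‖z - a‖ ∧ 7 / 8 * max ‖z - a‖ ‖b - a‖ ≤ ‖b - a‖ := by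
    rcases max_choice ‖z - a‖ ‖b - a‖ with h | h
    · rw [h] at hcon ⊢
      constructor <;> linarith
    · rw [h] at hcon ⊢
      constructor <;> linarith
  have h2 := pf_near (c := b) (a := a) hza hzb (by rw [hsw]; linarith [hm3.2])
  rw [hsw] at h2
  have h3 : pf a b z ≤ max ‖z - a‖ ‖b - a‖ ^ 2 / (‖z - a‖ ^ 4 * ‖z - b‖ ^ 2) := by
    unfold pf
    apply div_le_div_of_nonneg_left (by positivity) (by positivity)
    have := abs_nonneg (Real.log (‖z - a‖ / ‖b - a‖))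
    apply le_mul_of_one_le_right (by positivity)
    linarith
  have h4 := h2.trans (h1.trans h3)
  obtain ⟨hm4, hm5⟩ := hm3
  clear h1 h2 h3 hmax hsw htri1 htri2
  generalize max ‖z - a‖ ‖b - a‖ = m at *
  generalize ‖z - a‖ = ρ at *
  generalize ‖b - a‖ = r at *
  generalize ‖z - b‖ = d at *
  have hm : 0 < m := lt_of_lt_of_le hρ hm1
  rw [div_le_div_iff₀ (by positivity) (by positivity)] at h4
  have h5 : r * ρ ^ 2 ≤ m ^ 2 * d := by
    have h6 : (r * ρ ^ 2) * (ρ ^ 2 * d ^ 2) ≤ (m ^ 2 * d) * (ρ ^ 2 * d ^ 2) := by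
      calc (r * ρ ^ 2) * (ρ ^ 2 * d ^ 2) = r * (ρ ^ 4 * d ^ 2) := by ring
        _ ≤ m ^ 2 * (d ^ 3 * ρ ^ 2) := h4
        _ = _ := by ring
    exact le_of_mul_le_mul_right h6 (by positivity)
  have h7 : (7 / 8 * m) * (7 / 8 * m) ^ 2 ≤ r * ρ ^ 2 := by
    apply mul_le_mul hm5 _ (by positivity) hr.le
    exact pow_le_pow_left₀ (by positivity) hm4 2
  have h8 : m ^ 2 * d < m ^ 2 * (m / 8) := mul_lt_mul_of_pos_left (by linarith) (by positivity)
  have h9 : 0 < m ^ 3 := by positivity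
  nlinarith

/-- the estimate (i) -/
theorem ell_le {Z : Finset ℂ} {a b z : ℂ} (ha : a ∈ Z) (hb : b ∈ Z) (hab : a ≠ b) (hz : z ∉ Z)
    (hmax : gf Z z = pf a b z) {c : ℂ} (hc : c ∈ Z) (hca : c ≠ a) :
    1 + |Real.log (‖z - a‖ / ‖b - a‖)| ≤ 256 * (1 + |Real.log (‖z - a‖ / ‖c - a‖)|) := by
  have hza : z ≠ a := fun h => hz (h ▸ ha)
  have hzb : z ≠ b := fun h => hz (h ▸ hb)
  have hzc : z ≠ c := fun h => hz (h ▸ hc)
  have h1 := pf_lower hca.symm hza hzc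
  have h2 := pf_le_gf ha hc hca.symm z
  rw [hmax] at h2
  have h3 := pf_upper hab hza hzb (far_second ha hb hab hz hmax)
  have h4 := h1.trans (h2.trans h3)
  have hρ : 0 < ‖z - a‖ := norm_pos_iff.2 (sub_ne_zero.2 hza)
  have hl1 : 0 < 1 + |Real.log (‖z - a‖ / ‖b - a‖)| := by
    have := abs_nonneg (Real.log (‖z - a‖ / ‖b - a‖)); linarith
  have hl2 : 0 < 1 + |Real.log (‖z - a‖ / ‖c - a‖)| := by
    have := abs_nonneg (Real.log (‖z - a‖ / ‖c - a‖)); linarith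
  rw [div_le_div_iff₀ (by positivity) (by positivity)] at h4
  generalize 1 + |Real.log (‖z - a‖ / ‖b - a‖)| = ℓ at *
  generalize 1 + |Real.log (‖z - a‖ / ‖c - a‖)| = y at *
  have h5 : ℓ * ‖z - a‖ ^ 4 ≤ (256 * y) * ‖z - a‖ ^ 4 := by linarith
  exact le_of_mul_le_mul_right h5 (by positivity)

/-- the estimate (ii) -/
theorem far_all {Z : Finset ℂ} {a b z : ℂ} (ha : a ∈ Z) (hb : b ∈ Z) (hab : a ≠ b) (hz : z ∉ Z)
    (hmax : gf Z z = pf a b z) {c : ℂ} (hc : c ∈ Z) (hca : c ≠ a) :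
    ‖z - a‖ / 8 ≤ ‖z - c‖ := by
  have hza : z ≠ a := fun h => hz (h ▸ ha)
  have hzb : z ≠ b := fun h => hz (h ▸ hb)
  have hzc : z ≠ c := fun h => hz (h ▸ hc)
  by_contra hcon
  push Not at hcon
  have hρ : 0 < ‖z - a‖ := norm_pos_iff.2 (sub_ne_zero.2 hza)
  have ht : 0 < ‖z - c‖ := norm_pos_iff.2 (sub_ne_zero.2 hzc)
  have htri : ‖z - a‖ ≤ ‖z - c‖ + ‖a - c‖ := by
    have h := norm_sub_le (z - c) (a - c)
    have e : z - c - (a - c) = z - a := by ring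
    rwa [e] at h
  have h1 := pf_near (c := c) (a := a) hza hzc (by linarith)
  have h2 := pf_le_gf hc ha hca z
  rw [hmax] at h2
  have h3 := pf_upper hab hza hzb (far_second ha hb hab hz hmax)
  have h4 : (64 : ℝ) / (‖z - a‖ ^ 4 * (1 + |Real.log (‖z - a‖ / ‖b - a‖)|)) ≤
      64 / ‖z - a‖ ^ 4 := by
    apply div_le_div_of_nonneg_left (by norm_num) (by positivity)
    have := abs_nonneg (Real.log (‖z - a‖ / ‖b - a‖))
    apply le_mul_of_one_le_right (by positivity)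
    linarith
  have h5 := h1.trans (h2.trans (h3.trans h4))
  clear h1 h2 h3 h4 hmax
  generalize ‖z - a‖ = ρ at *
  generalize ‖a - c‖ = s at *
  generalize ‖z - c‖ = t at *
  rw [div_le_div_iff₀ (by positivity) (by positivity)] at h5
  have h6 : s * ρ ^ 2 ≤ 64 * t ^ 3 := by
    have h7 : (s * ρ ^ 2) * ρ ^ 2 ≤ (64 * t ^ 3) * ρ ^ 2 := by
      calc (s * ρ ^ 2) * ρ ^ 2 = s * ρ ^ 4 := by ring
        _ ≤ 64 * (t ^ 3 * ρ ^ 2) := h5
        _ = _ := by ring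
    exact le_of_mul_le_mul_right h7 (by positivity)
  have h8 : t ^ 3 ≤ (ρ / 8) ^ 3 := pow_le_pow_left₀ ht.le hcon.le 3
  have h9 : 7 / 8 * ρ * ρ ^ 2 ≤ s * ρ ^ 2 := mul_le_mul_of_nonneg_right (by linarith) (by positivity)
  have h10 : 0 < ρ ^ 3 := by positivity
  nlinarith

theorem norm_ed_sub (a b z w : ℂ) : ‖ed a b z w - a‖ = ‖z - a‖ *
    Real.exp (1 / 8192 * (1 + |Real.log (‖z - a‖ / ‖b - a‖)|) * w.re) := by
  unfold ed
  rw [add_sub_cancel_left, norm_mul, Complex.norm_exp, Complex.re_ofReal_mul]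

theorem t3 : S_T3 := by
  intro η hη
  obtain ⟨e, he⟩ : ∃ e : ℝ, e = min (1 / 8) (η ^ 2 / 128) := ⟨_, rfl⟩
  have he0 : 0 < e := by rw [he]; exact lt_min (by norm_num) (by positivity)
  have he1 : e ≤ 1 / 8 := by rw [he]; exact min_le_left _ _
  have he2 : e ≤ η ^ 2 / 128 := by rw [he]; exact min_le_right _ _
  refine ⟨1024 / e ^ 4 + 1, by have : 0 < 1024 / e ^ 4 := by positivity
                               linarith, ?_⟩
  intro Z hZ a ha b hb hab z hz1 hzZ hmax hM w hw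
  have hza : z ≠ a := fun h => hzZ (h ▸ ha)
  have hzb : z ≠ b := fun h => hzZ (h ▸ hb)
  have hρ : 0 < ‖z - a‖ := norm_pos_iff.2 (sub_ne_zero.2 hza)
  have hre : |w.re| ≤ 1 := (Complex.abs_re_le_norm w).trans hw
  have hed := norm_ed_sub a b z w
  have hl := fun c hc hca => ell_le (c := c) ha hb hab hzZ hmax hc hca
  have hfar := fun c hc hca => far_all (c := c) ha hb hab hzZ hmax hc hca
  have hup := pf_upper hab hza hzb (far_second ha hb hab hzZ hmax)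
  have hed2 : ‖ed a b z w - z‖ = ‖z - a‖ * ‖Complex.exp
      (((1 / 8192 * (1 + |Real.log (‖z - a‖ / ‖b - a‖)|) : ℝ) : ℂ) * w) - 1‖ := by
    unfold ed
    rw [← norm_mul]
    congr 1
    ring
  have hℓ1 : 1 ≤ 1 + |Real.log (‖z - a‖ / ‖b - a‖)| := by
    have := abs_nonneg (Real.log (‖z - a‖ / ‖b - a‖)); linarith
  obtain ⟨E, hE⟩ : ∃ E, E = ed a b z w := ⟨_, rfl⟩
  rw [← hE] at hed hed2 ⊢
  generalize 1 + |Real.log (‖z - a‖ / ‖b - a‖)| = ℓ at *
  constructor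
  · -- `E ∉ Z`
    intro hEZ
    have hEa : E ≠ a := by
      intro h
      rw [h, sub_self, norm_zero] at hed
      have : 0 < ‖z - a‖ * Real.exp (1 / 8192 * ℓ * w.re) := mul_pos hρ (Real.exp_pos _)
      linarith
    have h1 := hl E hEZ hEa
    have h2 : Real.log (‖z - a‖ / ‖E - a‖) = -(1 / 8192 * ℓ * w.re) := by
      rw [hed, div_mul_eq_div_div, div_self hρ.ne', one_div, ← Real.exp_neg, Real.log_exp]
    rw [h2, abs_neg, abs_mul, abs_of_nonneg (show 0 ≤ 1 / 8192 * ℓ by positivity)] at h1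
    have h3 : 1 / 8192 * ℓ * |w.re| ≤ 1 / 8192 * ℓ := mul_le_of_le_one_right (by positivity) hre
    have h4 : ℓ ≤ 265 := by linarith
    have h5 := hfar E hEZ hEa
    have h6 : ‖((1 / 8192 * ℓ : ℝ) : ℂ) * w‖ ≤ 1 / 8192 * ℓ := by
      rw [norm_mul, Complex.norm_real, Real.norm_of_nonneg (by positivity)]
      exact mul_le_of_le_one_right (by positivity) hw
    have h7 := Complex.norm_exp_sub_one_le (x := ((1 / 8192 * ℓ : ℝ) : ℂ) * w) (by linarith)
    have h8 : ‖E - z‖ ≤ ‖z - a‖ * (2 * (1 / 8192 * ℓ)) := by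
      rw [hed2]
      exact mul_le_mul_of_nonneg_left (by linarith) hρ.le
    rw [norm_sub_rev] at h8
    nlinarith
  · -- the boundary
    have hx0 : 0 ≤ ‖z‖ := norm_nonneg z
    have hq0 : 0 < 1 - ‖z‖ ^ 2 := by nlinarith
    have h1 : pf a b z ≤ 64 / ‖z - a‖ ^ 4 := by
      refine hup.trans ?_
      apply div_le_div_of_nonneg_left (by norm_num) (by positivity)
      exact le_mul_of_one_le_right (by positivity) hℓ1
    have h2 : 2 * ‖z - a‖ < e * (1 - ‖z‖ ^ 2) := by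
      apply lt_of_pow_lt_pow_left₀ 4 (by positivity)
      rw [hmax] at hM
      have h3 : pf a b z * (1 - ‖z‖ ^ 2) ^ 4 ≤ 64 / ‖z - a‖ ^ 4 * (1 - ‖z‖ ^ 2) ^ 4 :=
        mul_le_mul_of_nonneg_right h1 (by positivity)
      have h4 : 1024 / e ^ 4 < 64 / ‖z - a‖ ^ 4 * (1 - ‖z‖ ^ 2) ^ 4 := by linarith
      rw [div_mul_eq_mul_div, div_lt_div_iff₀ (by positivity) (by positivity)] at h4
      rw [mul_pow, mul_pow]
      linarith
    have htri1 : ‖a‖ ≤ ‖z‖ + ‖z - a‖ := by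
      have h := norm_sub_le z (z - a)
      have e' : z - (z - a) = a := by ring
      rwa [e'] at h
    have htri2 : ‖z‖ ≤ ‖a‖ + ‖z - a‖ := by
      have h := norm_add_le a (z - a)
      have e' : a + (z - a) = z := by ring
      rwa [e'] at h
    have htri3 : ‖E‖ ≤ ‖a‖ + ‖E - a‖ := by
      have h := norm_add_le a (E - a)
      have e' : a + (E - a) = E := by ring
      rwa [e'] at h
    have h5 : ‖z - a‖ < e * (1 - ‖z‖) := by nlinarith
    have h6 : ‖z - a‖ ≤ 1 / 8 * (1 - ‖z‖) := by nlinarith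
    have ha1 : ‖a‖ < 1 := by linarith
    obtain ⟨c, hc, hc1, hca⟩ := hZ a ha ha1
    have hcne : c ≠ a := by
      intro h
      rw [h] at hc1
      linarith
    have h7 := hl c hc hcne
    rw [hca] at h7
    obtain ⟨σ, hσ⟩ : ∃ σ, σ = 1 - ‖a‖ := ⟨_, rfl⟩
    rw [← hσ] at h7
    have hσ0 : 0 < σ := by linarith
    have h8 : 7 / 8 * (1 - ‖z‖) ≤ σ := by linarith
    have h9 : ‖z - a‖ ≤ 2 * e * σ := by nlinarith
    have h10 : σ ≤ 2 * (1 - ‖z‖) := by linarith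
    have h11 : 4 ≤ σ / ‖z - a‖ := by
      rw [le_div_iff₀ hρ]
      have h31 : e * σ ≤ 1 / 8 * σ := mul_le_mul_of_nonneg_right he1 hσ0.le
      linarith
    obtain ⟨Y, hY⟩ : ∃ Y, Y = Real.log (σ / ‖z - a‖) := ⟨_, rfl⟩
    have hY1 : 1 ≤ Y := by
      rw [hY, Real.le_log_iff_exp_le (by linarith)]
      have := Real.exp_one_lt_d9
      linarith
    have h12 : |Real.log (‖z - a‖ / σ)| = Y := by
      rw [← inv_div, Real.log_inv, abs_neg, ← hY, abs_of_pos (by linarith)]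
    rw [h12] at h7
    have h13 : 1 / 8192 * ℓ * w.re ≤ Y / 2 := by
      have h14 : 1 / 8192 * ℓ * w.re ≤ 1 / 8192 * ℓ * 1 :=
        mul_le_mul_of_nonneg_left ((le_abs_self _).trans hre) (by positivity)
      linarith
    have h14 : ‖E - a‖ ≤ ‖z - a‖ * Real.exp (Y / 2) := by
      rw [hed]
      exact mul_le_mul_of_nonneg_left (Real.exp_le_exp.2 h13) hρ.le
    have h15 : Real.exp (Y / 2) ^ 2 = σ / ‖z - a‖ := by
      rw [← Real.exp_nat_mul]
      have : ((2 : ℕ) : ℝ) * (Y / 2) = Y := by push_cast; ring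
      rw [this, hY, Real.exp_log (by positivity)]
    obtain ⟨τ, hτ⟩ : ∃ τ, τ = Real.sqrt (2 * e) := ⟨_, rfl⟩
    have hτ0 : 0 ≤ τ := by rw [hτ]; exact Real.sqrt_nonneg _
    have hτ2 : τ ^ 2 = 2 * e := by rw [hτ]; exact Real.sq_sqrt (by positivity)
    have hτ1 : τ ≤ 1 / 2 := by
      rw [← pow_le_pow_iff_left₀ hτ0 (by norm_num) two_ne_zero, hτ2]
      linarith
    have hτ3 : 8 * τ ≤ η := by
      rw [← pow_le_pow_iff_left₀ (by positivity) hη.le two_ne_zero, mul_pow, hτ2]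
      linarith
    have h16 : ‖z - a‖ * Real.exp (Y / 2) ≤ τ * σ := by
      rw [← pow_le_pow_iff_left₀ (by positivity) (by positivity) two_ne_zero, mul_pow, mul_pow,
        h15, hτ2]
      have h17 : ‖z - a‖ ^ 2 * (σ / ‖z - a‖) = ‖z - a‖ * σ := by
        field_simp
      rw [h17]
      have := mul_le_mul_of_nonneg_right h9 hσ0.le
      linarith
    have h18 : ‖E - a‖ ≤ τ * σ := h14.trans h16
    have h19 : ‖z - a‖ ≤ τ * σ := by
      rw [← hτ2] at h9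
      have : τ ^ 2 * σ ≤ τ * σ := by
        apply mul_le_mul_of_nonneg_right _ hσ0.le
        rw [pow_two]
        exact mul_le_of_le_one_left hτ0 (by linarith)
      exact h9.trans this
    have h20 : τ * σ ≤ 1 / 2 * σ := mul_le_mul_of_nonneg_right hτ1 hσ0.le
    have hE1 : ‖E‖ < 1 := by linarith
    refine ⟨hE1, ?_⟩
    have hE0 : 0 ≤ ‖E‖ := norm_nonneg E
    have h21 : ‖E‖ ≤ ‖z‖ + 2 * (τ * σ) := by linarith
    have h22 : σ ≤ 2 * (1 - ‖z‖ ^ 2) := by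
      have h29 : ‖z‖ ^ 2 ≤ ‖z‖ := by
        rw [pow_two]
        exact mul_le_of_le_one_left hx0 hz1.le
      linarith
    have h23 : ‖E‖ ^ 2 - ‖z‖ ^ 2 ≤ 4 * (τ * σ) := by
      have h24 : (‖E‖ - ‖z‖) * (‖E‖ + ‖z‖) ≤ (2 * (τ * σ)) * 2 := by
        have h25 : (‖E‖ - ‖z‖) * (‖E‖ + ‖z‖) ≤ (2 * (τ * σ)) * (‖E‖ + ‖z‖) :=
          mul_le_mul_of_nonneg_right (by linarith) (by linarith)
        have h26 : (2 * (τ * σ)) * (‖E‖ + ‖z‖) ≤ (2 * (τ * σ)) * 2 :=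
          mul_le_mul_of_nonneg_left (by linarith) (by positivity)
        exact h25.trans h26
      have h30 : ‖E‖ ^ 2 - ‖z‖ ^ 2 = (‖E‖ - ‖z‖) * (‖E‖ + ‖z‖) := by ring
      linarith
    have h27 : τ * σ ≤ τ * (2 * (1 - ‖z‖ ^ 2)) := mul_le_mul_of_nonneg_left h22 hτ0
    have h28 : 8 * τ * (1 - ‖z‖ ^ 2) ≤ η * (1 - ‖z‖ ^ 2) := mul_le_mul_of_nonneg_right hτ3 hq0.le
    linarith

end Pool.Agent.H918.SS
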